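import Pool.Agent.Y51.AM.Alg
import Pool.Agent.Y51.AM.Core
import Pool.Agent.Helper737.AmpleA

/-!
# Weakly ample fields which are not virtually ample, over every countable field

Every countable field `k` of characteristic zero is algebraically closed in a countable field `K`
such that every `K`-curve has infinitely many points over an extension of `K` of degree at most
two, while for every extension `M` of `K` generated by finitely many elements algebraic over `K`
and by arbitrarily many elements algebraic over `k` there is a nonzero `u` in `K` such that the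
smooth curve `x ^ 4 + u * y ^ 4 = 1` has no `M`-rational points except the (at most four) points
with `y = 0`. In particular `K` is weakly ample, but neither `K` nor the compositum of `K` with an
algebraic closure of `k` is virtually ample.
-/

set_option autoImplicit false

open AlgebraicGeometry CategoryTheory

namespace Pool.Agent.Results.MP_0a37ce_al.QuadraticallyAmpleExtensions

open Pool.Agent.Helper737.Ample Pool.Agent.Y51.AM

theorem finite_of_zero {M : Type} [Field M] (u : M)
    (h : ∀ a b : M, a ^ 4 + u * b ^ 4 = 1 → b = 0) :
    {p : M × M | p.1 ^ 4 + u * p.2 ^ 4 = 1}.Finite := by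
  have hfin : {a : M | a ^ 4 = 1}.Finite := by
    have h6 : (Polynomial.X ^ 4 - Polynomial.C (1 : M)) ≠ 0 :=
      Polynomial.X_pow_sub_C_ne_zero (by norm_num) _
    refine (Polynomial.finite_setOfPred_isRoot h6).subset ?_
    intro a ha
    simp only [Set.mem_ofPred_eq] at ha ⊢
    simp [ha]
  refine ((hfin.image (fun a => ((a, 0) : M × M)))).subset ?_
  rintro ⟨a, b⟩ hab
  have hb0 : b = 0 := h a b hab
  subst hb0
  refine ⟨a, ?_, rfl⟩
  have := hab
  simp only [Set.mem_ofPred_eq] at this ⊢
  simpa using this

/-- **Theorem.** Let `k` be a countable field of characteristic zero. There is a countable field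
`K` containing `k`, in which `k` is algebraically closed, such that

* every `K`-curve has infinitely many `L`-rational points for some extension `L` of `K` of degree
  at most two (depending on the curve);
* for every algebraic extension `M` of `K` generated over `K` by a finite set together with
  elements algebraic over `k` there is `u ≠ 0` in `K` such that all solutions of
  `a ^ 4 + u * b ^ 4 = 1` in `M` have `b = 0`, and `M` is not ample;
* `K` is weakly ample and not virtually ample. -/
theorem result (k : Type) [Field k] [CharZero k] [Countable k] :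
    ∃ (K : Type) (_ : Field K) (_ : Algebra k K), Countable K ∧
      (∀ z : K, IsAlgebraic k z → z ∈ (algebraMap k K).range) ∧
      (∀ (C : Scheme.{0}) (f : C ⟶ Spec (.of K)), IsCurve f →
        ∃ (L : Type) (_ : Field L) (_ : Algebra K L), FiniteDimensional K L ∧
          Module.finrank K L ≤ 2 ∧ Infinite (Points f L)) ∧
      (∀ (M : Type) [Field M] [Algebra K M] [Algebra k M] [IsScalarTower k K M]
        [Algebra.IsAlgebraic K M] (S : Set M), S.Finite →
        IntermediateField.adjoin K (S ∪ {z : M | IsAlgebraic k z}) = ⊤ →
        (∃ u : K, u ≠ 0 ∧ ∀ a b : M, a ^ 4 + algebraMap K M u * b ^ 4 = 1 → b = 0) ∧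
          ¬ IsAmple M) ∧
      IsWeaklyAmple K ∧ ¬ IsVirtuallyAmple K := by
  classical
  -- an uncountable algebraically closed field containing `k`
  let Fr : Type := FractionRing (MvPolynomial ℝ k)
  let Ω : Type := AlgebraicClosure Fr
  let i : MvPolynomial ℝ k →+* Ω := (algebraMap Fr Ω).comp (algebraMap (MvPolynomial ℝ k) Fr)
  have hi : Function.Injective i :=
    (algebraMap Fr Ω).injective.comp (IsFractionRing.injective (MvPolynomial ℝ k) Fr)
  have hunc : Uncountable Ω := by
    have hinj : Function.Injective (fun r : ℝ => i (MvPolynomial.X r)) :=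
      hi.comp (MvPolynomial.X_injective (R := k))
    exact hinj.uncountable
  let g : k →+* Ω := i.comp MvPolynomial.C
  have hchar : CharZero Ω := charZero_of_injective_ringHom g.injective
  have hc0 : ((g.fieldRange : Subfield Ω) : Set Ω).Countable := by
    have : ((g.fieldRange : Subfield Ω) : Set Ω) = Set.range g := by
      ext z; simp
    rw [this]
    exact Set.countable_range g
  obtain ⟨K, hK0, hKc, hreg, hx, hH, hM⟩ := core2 (Ω := Ω) g.fieldRange hc0
  let gK : k →+* K := g.codRestrict K (fun x => hK0 ⟨x, rfl⟩)
  let _ : Algebra k K := gK.toAlgebra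
  have halg : ∀ x : k, ((algebraMap k K x : K) : Ω) = g x := fun x => rfl
  have hquad := quadratic_of_tuples (K := K) Ω hx hH
  -- algebraic elements over `k`
  have hacl : ∀ (M : Type) [Field M] [Algebra K M] [Algebra k M] [IsScalarTower k K M]
      (φ : M →ₐ[K] Ω) (z : M), IsAlgebraic k z → φ z ∈ acl (g.fieldRange : Subfield Ω) := by
    intro M _ _ _ _ φ z hz
    obtain ⟨p, hp, hpz⟩ := hz
    rw [mem_acl]
    let g0 : k →+* (g.fieldRange : Subfield Ω) := g.rangeRestrictField
    refine ⟨p.map g0, (Polynomial.map_ne_zero_iff g0.injective).2 hp, ?_⟩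
    have h2 : (Polynomial.aeval (φ z)) (p.map g0) = φ (Polynomial.aeval z p) := by
      have h3 : φ (Polynomial.aeval z p) = Polynomial.eval₂ ((φ : M →+* Ω).comp (algebraMap k M))
          (φ z) p := by
        rw [Polynomial.aeval_def]
        exact Polynomial.hom_eval₂ p (algebraMap k M) (φ : M →+* Ω) z
      rw [h3, Polynomial.aeval_def, Polynomial.eval₂_map]
      congr 1
      ext x
      show g x = φ (algebraMap k M x)
      rw [IsScalarTower.algebraMap_apply k K M, AlgHom.commutes]
      rfl
    rw [h2, hpz, map_zero]
  have hMM : ∀ (M : Type) [Field M] [Algebra K M] [Algebra k M] [IsScalarTower k K M]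
      [Algebra.IsAlgebraic K M] (S : Set M), S.Finite →
      IntermediateField.adjoin K (S ∪ {z : M | IsAlgebraic k z}) = ⊤ →
      (∃ u : K, u ≠ 0 ∧ ∀ a b : M, a ^ 4 + algebraMap K M u * b ^ 4 = 1 → b = 0) ∧
        ¬ IsAmple M := by
    intro M _ _ _ _ _ S hS hgen
    let φ : M →ₐ[K] Ω := IsAlgClosed.lift
    obtain ⟨u, hu, h⟩ := hM M φ S hS (by
      rw [eq_top_iff, ← hgen]
      apply IntermediateField.adjoin.mono
      exact Set.union_subset_union_right S fun z hz => hacl M φ z hz)
    refine ⟨⟨u, hu, h⟩, ?_⟩
    have : CharZero M := charZero_of_injective_algebraMap (algebraMap K M).injective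
    exact not_isAmple_of_quartic (algebraMap K M u) (by rwa [Ne, map_eq_zero])
      (finite_of_zero _ h)
  refine ⟨K, inferInstance, inferInstance, hKc.to_subtype, ?_, hquad, hMM, ?_, ?_⟩
  · intro z hz
    have h1 : (z : Ω) ∈ acl (g.fieldRange : Subfield Ω) :=
      hacl K (Algebra.ofId K Ω) z hz
    obtain ⟨x, hx⟩ := hreg ⟨z.2, h1⟩
    exact ⟨x, Subtype.ext hx⟩
  · intro C f hC
    obtain ⟨L, hL1, hL2, h1, _, h2⟩ := hquad C f hC
    exact ⟨L, hL1, hL2, h1, h2⟩
  · rintro ⟨L, _, _, hfin, hL⟩
    let _ : Algebra k L := ((algebraMap K L).comp (algebraMap k K)).toAlgebra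
    have hst : IsScalarTower k K L := IsScalarTower.of_algebraMap_eq fun _ => rfl
    have hal : Algebra.IsAlgebraic K L := inferInstance
    obtain ⟨T, hT⟩ : ∃ T : Finset L, Submodule.span K (T : Set L) = ⊤ := hfin.fg_top
    refine (hMM L (T : Set L) T.finite_toSet ?_).2 hL
    rw [eq_top_iff]
    intro z _
    have h1 : z ∈ Submodule.span K (T : Set L) := by rw [hT]; trivial
    have h2 : Submodule.span K (T : Set L) ≤
        (IntermediateField.adjoin K ((T : Set L) ∪ {z : L | IsAlgebraic k z})).toSubalgebra.toSubmodule := by
      rw [Submodule.span_le]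
      intro x hx
      exact IntermediateField.subset_adjoin K _ (Or.inl hx)
    exact h2 h1

end Pool.Agent.Results.MP_0a37ce_al.QuadraticallyAmpleExtensions
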